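import Pool.Agent.Y160.T3.Count

/-!
# Counting pairs of irreducible polynomials `g`, `g + b ^ q`
-/

set_option autoImplicit false
set_option linter.all false

open Polynomial

namespace Pool.Agent.Y160.T3

section formulas

variable {F : Type} [Field F]

theorem sc_bF (μ : F) {r : ℕ} (w : Fin r → F) :
    sc μ (bF w) = bF (fun i => w i * μ⁻¹ ^ (i : ℕ)) := by
  unfold sc bF
  rw [← coe_compRingHom_apply, map_sum]
  refine Finset.sum_congr rfl fun i _ => ?_
  rw [coe_compRingHom_apply]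
  rw [mul_comp, C_comp, pow_comp, X_comp, mul_pow, C_mul, C_pow, mul_assoc]

theorem C_mul_bF (c : F) {r : ℕ} (w : Fin r → F) : C c * bF w = bF (fun i => c * w i) := by
  unfold bF
  rw [Finset.mul_sum]
  refine Finset.sum_congr rfl fun i _ => ?_
  rw [C_mul, mul_assoc]

theorem sc_mF {μ : F} (hμ : μ ≠ 0) {m : ℕ} (a : Fin m → F) :
    C (μ ^ m) * sc μ (mF a) = mF (fun i => μ ^ m * (a i * μ⁻¹ ^ (i : ℕ))) := by
  rw [mF_eq, mF_eq, sc_add, mul_add, sc_bF, C_mul_bF]
  congr 1
  unfold sc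
  rw [pow_comp, X_comp, mul_pow, ← C_pow, ← mul_assoc, ← C_mul, ← mul_pow, mul_inv_cancel₀ hμ,
    one_pow, C_1, one_mul]

theorem mF_add {m : ℕ} (a : Fin m → F) {f : F[X]} (hf : f.degree < m) :
    mF (a + fun i : Fin m => f.coeff i) = mF a + f := by
  rw [mF_eq, mF_eq, bF_add, bF_of hf, add_assoc]

theorem deg_pow {r m q : ℕ} (h : q * r < m) (w : Fin (r + 1) → F) (s : F) :
    (C s * bF w ^ q).degree < m := by
  have h1 : (bF w).natDegree ≤ r := by
    rw [natDegree_le_iff_coeff_eq_zero]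
    intro N hN
    exact coeff_eq_zero_of_degree_lt ((bF_deg w).trans_le (by exact_mod_cast hN))
  have h3 : (C s * bF w ^ q).natDegree ≤ q * r := by
    refine (natDegree_C_mul_le _ _).trans ((natDegree_pow_le).trans ?_)
    exact Nat.mul_le_mul le_rfl h1
  refine degree_le_natDegree.trans_lt ?_
  exact_mod_cast h3.trans_lt h

end formulas

section arith

theorem arith {n m r D a y x K : ℕ} (hn : 2 ≤ n) (hD : 2 * D ≤ n) (h1 : K * (n * a ^ 2) ≤ n ^ m * (x + K * a))
    (h2 : x ≤ y * (n - 1)) (h3 : n ^ m ≤ D * a) (h5 : (n - 1) * n ^ r ≤ K) :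
    n ^ (m + r + 1) ≤ 2 * D ^ 2 * y := by
  have hn1 : 0 < n - 1 := by omega
  have hn0 : 0 < n := by omega
  -- `K a ^ 2 n ≤ 2 n ^ m x`
  have e1 : K * a ^ 2 * n ≤ 2 * (n ^ m * x) := by
    have e2 : K * (n * a ^ 2) ≤ n ^ m * x + D * (K * a ^ 2) := by
      calc K * (n * a ^ 2) ≤ n ^ m * (x + K * a) := h1
        _ = n ^ m * x + n ^ m * (K * a) := by ring
        _ ≤ n ^ m * x + D * a * (K * a) := Nat.add_le_add_left (Nat.mul_le_mul h3 le_rfl) _
        _ = n ^ m * x + D * (K * a ^ 2) := by ring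
    have e3 : 2 * (D * (K * a ^ 2)) ≤ n * (K * a ^ 2) := by
      rw [← mul_assoc]
      exact Nat.mul_le_mul hD le_rfl
    have e4 : K * (n * a ^ 2) = n * (K * a ^ 2) := by ring
    have e5 : K * a ^ 2 * n = n * (K * a ^ 2) := by ring
    omega
  have e6 : (n - 1) * (n ^ (r + 1) * a ^ 2) ≤ (n - 1) * (2 * (n ^ m * y)) := by
    calc (n - 1) * (n ^ (r + 1) * a ^ 2) = (n - 1) * n ^ r * a ^ 2 * n := by rw [pow_succ]; ring
      _ ≤ K * a ^ 2 * n := Nat.mul_le_mul (Nat.mul_le_mul h5 le_rfl) le_rfl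
      _ ≤ 2 * (n ^ m * x) := e1
      _ ≤ 2 * (n ^ m * (y * (n - 1))) := Nat.mul_le_mul le_rfl (Nat.mul_le_mul le_rfl h2)
      _ = (n - 1) * (2 * (n ^ m * y)) := by ring
  have e7 := Nat.le_of_mul_le_mul_left e6 hn1
  have e8 : n ^ m * n ^ (m + r + 1) ≤ n ^ m * (2 * D ^ 2 * y) := by
    calc n ^ m * n ^ (m + r + 1) = n ^ (r + 1) * (n ^ m) ^ 2 := by
          rw [← pow_mul, ← pow_add, ← pow_add]; congr 1; ring
      _ ≤ n ^ (r + 1) * (D * a) ^ 2 := Nat.mul_le_mul le_rfl (Nat.pow_le_pow_left h3 2)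
      _ = D ^ 2 * (n ^ (r + 1) * a ^ 2) := by ring
      _ ≤ D ^ 2 * (2 * (n ^ m * y)) := Nat.mul_le_mul le_rfl e7
      _ = n ^ m * (2 * D ^ 2 * y) := by ring
  exact Nat.le_of_mul_le_mul_left e8 (Nat.pow_pos hn0)

end arith

section count

variable {F : Type} [Field F] [Fintype F]

open Classical in
/-- The number of the pairs. -/
theorem pair_count {m r q R D j b₀ : ℕ} (hqr : q * r < m) (hq : q ≠ 0)
    (hb : b₀ * q = j * (R * m) + 1)
    (hD : 2 * D ≤ Fintype.card F)
    (hA : Fintype.card F ^ m ≤ D * (Finset.univ.filter fun a : Fin m → F => GoodP R (mF a)).card) :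
    Fintype.card F ^ (m + r + 1) ≤ 2 * D ^ 2 *
      (Finset.univ.filter fun x : (Fin m → F) × (Fin (r + 1) → F) => x.2 ≠ 0 ∧ GoodP R (mF x.1) ∧
        GoodP R (mF x.1 + bF x.2 ^ q)).card := by
  set A : Finset (Fin m → F) := Finset.univ.filter fun a => GoodP R (mF a) with hAdef
  set Y : Finset ((Fin m → F) × (Fin (r + 1) → F)) := Finset.univ.filter fun x => x.2 ≠ 0 ∧
    GoodP R (mF x.1) ∧ GoodP R (mF x.1 + bF x.2 ^ q) with hY
  set X : Finset (((Fin m → F) × (Fin (r + 1) → F)) × F) := Finset.univ.filter fun x => x.1.2 ≠ 0 ∧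
    x.2 ≠ 0 ∧ GoodP R (mF x.1.1) ∧ GoodP R (mF x.1.1 + C x.2 * bF x.1.2 ^ q) with hX
  have hn2 : 2 ≤ Fintype.card F := Fintype.one_lt_card
  have hcardG : Fintype.card (Fin m → F) = Fintype.card F ^ m := by
    rw [Fintype.card_fun, Fintype.card_fin]
  have hcardW : (Finset.univ.erase (0 : Fin (r + 1) → F)).card = Fintype.card F ^ (r + 1) - 1 := by
    rw [Finset.card_erase_of_mem (Finset.mem_univ _), Finset.card_univ, Fintype.card_fun,
      Fintype.card_fin]
  -- the first inequality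
  have h1 : (Fintype.card F ^ (r + 1) - 1) * (Fintype.card F * A.card ^ 2) ≤
      Fintype.card F ^ m * (X.card + (Fintype.card F ^ (r + 1) - 1) * A.card) := by
    set φ : (Fin (r + 1) → F) → F →+ (Fin m → F) := fun w =>
      { toFun := fun s i => (C s * bF w ^ q).coeff i
        map_zero' := by funext i; rw [C_0, zero_mul, coeff_zero]; rfl
        map_add' := fun s s' => by funext i; rw [C_add, add_mul, coeff_add]; rfl } with hφ
    have hφm : ∀ w s (a : Fin m → F), mF (a + φ w s) = mF a + C s * bF w ^ q := fun w s a =>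
      mF_add a (deg_pow hqr w s)
    set N : (Fin (r + 1) → F) → Finset ((Fin m → F) × F) := fun w =>
      (A ×ˢ (Finset.univ : Finset F)).filter fun x => x.2 ≠ 0 ∧ x.1 + φ w x.2 ∈ A with hN
    have e1 : ∀ w, Fintype.card F * A.card ^ 2 ≤ Fintype.card F ^ m * ((N w).card + A.card) := by
      intro w
      have e2 := pairs_ge (φ w) A
      rw [hcardG] at e2
      refine e2.trans (Nat.mul_le_mul le_rfl ?_)
      have e3 : ((A ×ˢ (Finset.univ : Finset F)).filter fun x => x.1 + φ w x.2 ∈ A) ⊆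
          N w ∪ A.image fun a => (a, (0 : F)) := by
        intro x hx
        rw [Finset.mem_filter, Finset.mem_product] at hx
        rw [Finset.mem_union]
        by_cases h0 : x.2 = 0
        · right
          refine Finset.mem_image.2 ⟨x.1, hx.1.1, ?_⟩
          exact Prod.ext rfl h0.symm
        · left
          exact Finset.mem_filter.2 ⟨Finset.mem_product.2 hx.1, h0, hx.2⟩
      exact (Finset.card_le_card e3).trans ((Finset.card_union_le _ _).trans
        (Nat.add_le_add_left Finset.card_image_le _))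
    have e4 : ∑ w ∈ Finset.univ.erase (0 : Fin (r + 1) → F), (N w).card ≤ X.card := by
      rw [← Finset.card_sigma]
      refine Finset.card_le_card_of_injOn (fun y : (Σ _ : Fin (r + 1) → F, (Fin m → F) × F) =>
        ((y.2.1, y.1), y.2.2)) ?_ ?_
      · rintro ⟨w, a, s⟩ hy
        rw [Finset.mem_coe, Finset.mem_sigma, Finset.mem_erase] at hy
        obtain ⟨⟨hw, -⟩, hy⟩ := hy
        obtain ⟨hy1, hs, hy2⟩ := Finset.mem_filter.1 hy
        have ha : a ∈ A := (Finset.mem_product.1 hy1).1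
        have hy2 : a + φ w s ∈ A := hy2
        rw [hAdef, Finset.mem_filter] at ha hy2
        rw [hφm] at hy2
        rw [Finset.mem_coe, hX, Finset.mem_filter]
        exact ⟨Finset.mem_univ _, hw, hs, ha.2, hy2.2⟩
      · rintro ⟨w, a, s⟩ _ ⟨w', a', s'⟩ _ h
        have h1 : ((a, w), s) = ((a', w'), s') := h
        rw [Prod.mk.injEq, Prod.mk.injEq] at h1
        obtain ⟨⟨rfl, rfl⟩, rfl⟩ := h1
        rfl
    have e5 : ∑ w ∈ Finset.univ.erase (0 : Fin (r + 1) → F), (Fintype.card F * A.card ^ 2) ≤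
        ∑ w ∈ Finset.univ.erase (0 : Fin (r + 1) → F), Fintype.card F ^ m * ((N w).card + A.card) :=
      Finset.sum_le_sum fun w _ => e1 w
    rw [Finset.sum_const, hcardW, smul_eq_mul, ← Finset.mul_sum, Finset.sum_add_distrib,
      Finset.sum_const, hcardW, smul_eq_mul] at e5
    exact e5.trans (Nat.mul_le_mul le_rfl (Nat.add_le_add_right e4 _))
  -- the second inequality
  have h2 : X.card ≤ Y.card * (Fintype.card F - 1) := by
    have e1 : (Y ×ˢ (Finset.univ.erase (0 : F))).card = Y.card * (Fintype.card F - 1) := by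
      rw [Finset.card_product, Finset.card_erase_of_mem (Finset.mem_univ _), Finset.card_univ]
    rw [← e1]
    refine Finset.card_le_card_of_injOn (fun x =>
      ((fun i => ((x.2 ^ j) ^ R) ^ m * (x.1.1 i * ((x.2 ^ j) ^ R)⁻¹ ^ (i : ℕ)),
        fun i => x.2 ^ b₀ * (x.1.2 i * ((x.2 ^ j) ^ R)⁻¹ ^ (i : ℕ))), x.2)) ?_ ?_
    · rintro ⟨⟨a, w⟩, t⟩ hx
      rw [Finset.mem_coe, hX, Finset.mem_filter] at hx
      obtain ⟨-, hw, ht, hg, hg2⟩ := hx
      have hw : w ≠ 0 := hw
      have ht : t ≠ 0 := ht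
      have hg : GoodP R (mF a) := hg
      have hg2 : GoodP R (mF a + C t * bF w ^ q) := hg2
      have hν : t ^ j ≠ 0 := pow_ne_zero _ ht
      have hμ : (t ^ j) ^ R ≠ 0 := pow_ne_zero _ hν
      rw [Finset.mem_coe, Finset.mem_product, Finset.mem_erase]
      refine ⟨?_, ht, Finset.mem_univ _⟩
      rw [hY, Finset.mem_filter]
      refine ⟨Finset.mem_univ _, ?_, ?_, ?_⟩
      · intro h0
        apply hw
        funext i
        have h3 := congrFun h0 i
        have h3 : t ^ b₀ * (w i * ((t ^ j) ^ R)⁻¹ ^ (i : ℕ)) = 0 := h3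
        rcases mul_eq_zero.1 h3 with h4 | h4
        · exact absurd h4 (pow_ne_zero _ ht)
        · rcases mul_eq_zero.1 h4 with h5 | h5
          · exact h5
          · exact absurd h5 (pow_ne_zero _ (inv_ne_zero hμ))
      · show GoodP R (mF fun i => ((t ^ j) ^ R) ^ m * (a i * ((t ^ j) ^ R)⁻¹ ^ (i : ℕ)))
        rw [← sc_mF hμ]
        exact good_sc hν hg
      · show GoodP R (mF (fun i => ((t ^ j) ^ R) ^ m * (a i * ((t ^ j) ^ R)⁻¹ ^ (i : ℕ))) +
          bF (fun i => t ^ b₀ * (w i * ((t ^ j) ^ R)⁻¹ ^ (i : ℕ))) ^ q)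
        rw [← sc_mF hμ, ← C_mul_bF, ← sc_bF]
        have e2 : C (((t ^ j) ^ R) ^ m) * sc ((t ^ j) ^ R) (mF a) +
            (C (t ^ b₀) * sc ((t ^ j) ^ R) (bF w)) ^ q =
            C (((t ^ j) ^ R) ^ m) * sc ((t ^ j) ^ R) (mF a + C t * bF w ^ q) := by
          rw [sc_add, sc_C_mul, sc_pow, mul_pow, mul_add, ← mul_assoc (C (((t ^ j) ^ R) ^ m)) (C t),
            ← C_mul, ← C_pow]
          congr 3
          rw [← pow_mul, ← pow_mul, ← pow_mul, hb, pow_succ]
        rw [e2]
        exact good_sc hν hg2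
    · rintro ⟨⟨a, w⟩, t⟩ hx ⟨⟨a', w'⟩, t'⟩ _ h
      rw [Finset.mem_coe, hX, Finset.mem_filter] at hx
      obtain ⟨-, -, ht, -, -⟩ := hx
      have ht : t ≠ 0 := ht
      simp only [Prod.mk.injEq] at h
      obtain ⟨⟨h3, h4⟩, rfl⟩ := h
      have hμ : (t ^ j) ^ R ≠ 0 := pow_ne_zero _ (pow_ne_zero _ ht)
      have e3 : a = a' := by
        funext i
        have h5 := congrFun h3 i
        exact mul_right_cancel₀ (pow_ne_zero _ (inv_ne_zero hμ))
          (mul_left_cancel₀ (pow_ne_zero _ hμ) h5)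
      have e4 : w = w' := by
        funext i
        have h5 := congrFun h4 i
        exact mul_right_cancel₀ (pow_ne_zero _ (inv_ne_zero hμ))
          (mul_left_cancel₀ (pow_ne_zero _ ht) h5)
      rw [e3, e4]
  refine arith hn2 hD h1 h2 hA ?_
  have h6 : Fintype.card F ^ (r + 1) = (Fintype.card F - 1) * Fintype.card F ^ r +
      Fintype.card F ^ r := by
    rw [pow_succ]
    obtain ⟨n', hn'⟩ : ∃ n', Fintype.card F = n' + 1 := ⟨Fintype.card F - 1, by omega⟩
    rw [hn', Nat.add_sub_cancel]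
    ring
  have h7 : 0 < Fintype.card F ^ r := Nat.pow_pos (by omega)
  omega

end count

end Pool.Agent.Y160.T3
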