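import Mathlib

/-!
# Counting irreducible polynomials over finite fields
-/

set_option autoImplicit false
set_option linter.all false

open Polynomial

namespace Pool.Agent.Y160.T3

/-- Pairs in a set which differ by an element of a subgroup. -/
theorem pairs_ge {G S : Type} [AddCommGroup G] [Fintype G] [DecidableEq G] [AddCommGroup S]
    [Fintype S] (φ : S →+ G) (A : Finset G) :
    Fintype.card S * A.card ^ 2 ≤ Fintype.card G *
      ((A ×ˢ (Finset.univ : Finset S)).filter fun x => x.1 + φ x.2 ∈ A).card := by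
  classical
  set f : G → ℕ := fun g => ∑ s : S, if g + φ s ∈ A then 1 else 0 with hf
  have h1 : ∑ g, f g = Fintype.card S * A.card := by
    rw [hf]
    rw [Finset.sum_comm]
    have : ∀ s : S, (∑ g : G, if g + φ s ∈ A then 1 else 0) = A.card := by
      intro s
      rw [Fintype.sum_equiv (Equiv.addRight (φ s)) (fun g => if g + φ s ∈ A then 1 else 0)
        (fun g => if g ∈ A then 1 else 0) (fun g => rfl)]
      rw [Finset.sum_ite_mem, Finset.univ_inter, Finset.sum_const, smul_eq_mul, mul_one]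
    rw [Finset.sum_congr rfl fun s _ => this s, Finset.sum_const, Finset.card_univ, smul_eq_mul]
  have h2 : ∑ g, f g ^ 2 = Fintype.card S *
      ((A ×ˢ (Finset.univ : Finset S)).filter fun x => x.1 + φ x.2 ∈ A).card := by
    have e1 : ∀ g, f g ^ 2 = ∑ s : S, ∑ s' : S, (if g + φ s ∈ A then 1 else 0) *
        (if g + φ s' ∈ A then 1 else 0) := by
      intro g
      rw [pow_two, hf, Finset.sum_mul_sum]
    rw [Finset.sum_congr rfl fun g _ => e1 g, Finset.sum_comm]
    have e2 : ∀ s : S, (∑ g : G, ∑ s' : S, (if g + φ s ∈ A then 1 else 0) *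
        (if g + φ s' ∈ A then 1 else 0)) =
        ((A ×ˢ (Finset.univ : Finset S)).filter fun x => x.1 + φ x.2 ∈ A).card := by
      intro s
      rw [Fintype.sum_equiv (Equiv.addRight (φ s)) (fun g => ∑ s' : S, (if g + φ s ∈ A then 1 else 0) *
        (if g + φ s' ∈ A then 1 else 0)) (fun g => ∑ s' : S, (if g ∈ A then 1 else 0) *
        (if g + φ s' ∈ A then 1 else 0)) ?_]
      · rw [Finset.card_filter, Finset.sum_product]
        rw [← Finset.sum_filter_add_sum_filter_not Finset.univ (fun g => g ∈ A)]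
        have e3 : (∑ g ∈ Finset.univ.filter (fun g => ¬ g ∈ A), ∑ s' : S,
            (if g ∈ A then 1 else 0) * (if g + φ s' ∈ A then 1 else 0)) = 0 := by
          refine Finset.sum_eq_zero fun g hg => Finset.sum_eq_zero fun s' _ => ?_
          rw [if_neg (Finset.mem_filter.1 hg).2, zero_mul]
        rw [e3, add_zero, Finset.filter_mem_eq_inter, Finset.univ_inter]
        refine Finset.sum_congr rfl fun g hg => Finset.sum_congr rfl fun s' _ => ?_
        rw [if_pos hg, one_mul]
      · intro g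
        rw [Fintype.sum_equiv (Equiv.subRight s) (fun s' => (if g + φ s ∈ A then 1 else 0) *
          (if g + φ s' ∈ A then 1 else 0)) (fun s' => (if Equiv.addRight (φ s) g ∈ A then 1 else 0) *
          (if Equiv.addRight (φ s) g + φ s' ∈ A then 1 else 0)) ?_]
        intro s'
        have e4 : Equiv.addRight (φ s) g + φ (Equiv.subRight s s') = g + φ s' := by
          show g + φ s + φ (s' - s) = g + φ s'
          rw [map_sub]; abel
        rw [e4]
        rfl
    rw [Finset.sum_congr rfl fun s _ => e2 s, Finset.sum_const, Finset.card_univ, smul_eq_mul]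
  have h3 : (∑ g, f g) ^ 2 ≤ Fintype.card G * ∑ g, f g ^ 2 := by
    have := sq_sum_le_card_mul_sum_sq (s := (Finset.univ : Finset G)) (f := f)
    rwa [Finset.card_univ] at this
  rw [h1, h2] at h3
  have hS : 0 < Fintype.card S := Fintype.card_pos
  have h4 : Fintype.card S * (Fintype.card S * A.card ^ 2) ≤ Fintype.card S * (Fintype.card G *
      ((A ×ˢ (Finset.univ : Finset S)).filter fun x => x.1 + φ x.2 ∈ A).card) := by
    calc Fintype.card S * (Fintype.card S * A.card ^ 2) = (Fintype.card S * A.card) ^ 2 := by ring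
      _ ≤ _ := h3
      _ = _ := by ring
  exact Nat.le_of_mul_le_mul_left h4 hS

/-- `x ^ m + ∑ a_i x ^ i`. -/
noncomputable def mF {F : Type} [CommRing F] {m : ℕ} (a : Fin m → F) : F[X] :=
  X ^ m + ∑ i : Fin m, C (a i) * X ^ (i : ℕ)

/-- `∑ w_j x ^ j`. -/
noncomputable def bF {F : Type} [CommRing F] {r : ℕ} (w : Fin r → F) : F[X] :=
  ∑ j : Fin r, C (w j) * X ^ (j : ℕ)

section poly

variable {F : Type} [CommRing F]

theorem bF_deg {r : ℕ} (w : Fin r → F) : (bF w).degree < r := degree_sum_fin_lt w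

theorem bF_coeff {r : ℕ} (w : Fin r → F) (i : Fin r) : (bF w).coeff i = w i := by
  unfold bF
  rw [finset_sum_coeff, Finset.sum_eq_single i]
  · rw [coeff_C_mul_X_pow, if_pos rfl]
  · intro j _ hj
    rw [coeff_C_mul_X_pow, if_neg]
    intro h
    exact hj (Fin.ext h.symm)
  · intro h; exact absurd (Finset.mem_univ i) h

theorem bF_of {r : ℕ} {f : F[X]} (h : f.degree < r) : bF (fun i : Fin r => f.coeff i) = f := by
  ext i
  rcases lt_or_ge i r with hi | hi
  · exact bF_coeff (fun i : Fin r => f.coeff i) ⟨i, hi⟩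
  · rw [coeff_eq_zero_of_degree_lt ((bF_deg _).trans_le (by exact_mod_cast hi)),
      coeff_eq_zero_of_degree_lt (h.trans_le (by exact_mod_cast hi))]

theorem bF_inj {r : ℕ} {w w' : Fin r → F} (h : bF w = bF w') : w = w' := by
  funext i
  rw [← bF_coeff w i, ← bF_coeff w' i, h]

theorem bF_add {r : ℕ} (w w' : Fin r → F) : bF (w + w') = bF w + bF w' := by
  unfold bF
  rw [← Finset.sum_add_distrib]
  refine Finset.sum_congr rfl fun i _ => ?_
  rw [Pi.add_apply, C_add, add_mul]

theorem bF_zero {r : ℕ} : bF (0 : Fin r → F) = 0 := by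
  unfold bF
  refine Finset.sum_eq_zero fun i _ => ?_
  rw [Pi.zero_apply, C_0, zero_mul]

theorem mF_eq {m : ℕ} (a : Fin m → F) : mF a = X ^ m + bF a := rfl

theorem mF_inj {m : ℕ} {a a' : Fin m → F} (h : mF a = mF a') : a = a' := by
  rw [mF_eq, mF_eq] at h
  exact bF_inj (add_left_cancel h)

theorem mF_monic [Nontrivial F] {m : ℕ} (a : Fin m → F) : (mF a).Monic := by
  rw [mF_eq]
  exact monic_X_pow_add (by simpa using bF_deg a)

theorem mF_natDegree [Nontrivial F] {m : ℕ} (a : Fin m → F) : (mF a).natDegree = m := by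
  rw [mF_eq]
  apply natDegree_eq_of_degree_eq_some
  rw [degree_add_eq_left_of_degree_lt]
  · rw [degree_X_pow]
  · rw [degree_X_pow]; exact bF_deg a

theorem mF_of [Nontrivial F] {m : ℕ} {f : F[X]} (hf : f.Monic) (hd : f.natDegree = m) :
    mF (fun i : Fin m => f.coeff i) = f := by
  have h1 : (f - X ^ m).degree < (m : WithBot ℕ) := by
    have h2 := degree_sub_lt (p := f) (q := X ^ m) (by
      rw [degree_X_pow, degree_eq_natDegree hf.ne_zero, hd]) hf.ne_zero (by
      rw [hf.leadingCoeff, leadingCoeff_X_pow])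
    rwa [degree_eq_natDegree hf.ne_zero, hd] at h2
  have h3 := bF_of h1
  have h4 : (fun i : Fin m => (f - X ^ m).coeff i) = fun i : Fin m => f.coeff i := by
    funext i
    rw [coeff_sub, coeff_X_pow, if_neg (ne_of_lt i.2), sub_zero]
  rw [mF_eq, ← h4, h3]
  ring

end poly

/-- The condition on `g`: it is irreducible, and its constant term is not an `N`-th power for the
primes `N` which divide `R`. -/
def GoodP {F : Type} [Field F] (R : ℕ) (g : F[X]) : Prop :=
  Irreducible g ∧ ∀ N : ℕ, N.Prime → N ∣ R → ∀ y : F, y ^ N ≠ g.coeff 0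

section scale

variable {F : Type} [Field F]

/-- The substitution `x ↦ x / μ`. -/
noncomputable def sc (μ : F) (g : F[X]) : F[X] := g.comp (C μ⁻¹ * X)

theorem sc_add (μ : F) (g h : F[X]) : sc μ (g + h) = sc μ g + sc μ h := add_comp

theorem sc_pow (μ : F) (g : F[X]) (n : ℕ) : sc μ (g ^ n) = sc μ g ^ n := pow_comp _ _ _

theorem sc_C_mul (μ c : F) (g : F[X]) : sc μ (C c * g) = C c * sc μ g := by
  unfold sc
  rw [mul_comp, C_comp]

theorem sc_sc {μ : F} (hμ : μ ≠ 0) (g : F[X]) : sc μ (sc μ⁻¹ g) = g := by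
  unfold sc
  rw [comp_assoc, mul_comp, C_comp, X_comp, ← mul_assoc, ← C_mul, inv_inv, mul_inv_cancel₀ hμ, C_1,
    one_mul, comp_X]

theorem sc_coeff_zero (μ : F) (g : F[X]) : (sc μ g).coeff 0 = g.coeff 0 := by
  unfold sc
  rw [coeff_zero_eq_eval_zero, eval_comp, eval_mul, eval_X, mul_zero, ← coeff_zero_eq_eval_zero]

theorem sc_irr {μ : F} (hμ : μ ≠ 0) {g : F[X]} (hg : Irreducible g) : Irreducible (sc μ g) := by
  let e : F[X] ≃* F[X] :=
    { toFun := sc μ
      invFun := sc μ⁻¹
      left_inv := fun g => by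
        have := sc_sc (inv_ne_zero hμ) g
        rwa [inv_inv] at this
      right_inv := fun g => sc_sc hμ g
      map_mul' := fun a b => mul_comp _ _ _ }
  exact (MulEquiv.irreducible_iff e (x := g)).2 hg

theorem good_sc {R m : ℕ} {ν : F} (hν : ν ≠ 0) {g : F[X]} (hg : GoodP R g) :
    GoodP R (C ((ν ^ R) ^ m) * sc (ν ^ R) g) := by
  have hνR : ν ^ R ≠ 0 := pow_ne_zero _ hν
  refine ⟨?_, ?_⟩
  · have hu : IsUnit (C ((ν ^ R) ^ m) : F[X]) := isUnit_C.2 (isUnit_iff_ne_zero.2 (pow_ne_zero _ hνR))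
    exact (irreducible_isUnit_mul hu).2 (sc_irr hνR hg.1)
  · intro N hN hNR y hy
    obtain ⟨R', rfl⟩ := hNR
    rw [coeff_C_mul, sc_coeff_zero] at hy
    refine hg.2 N hN (Dvd.intro _ rfl) (y / (ν ^ R') ^ m) ?_
    rw [div_pow, hy]
    have e : (ν ^ (N * R')) ^ m = ((ν ^ R') ^ m) ^ N := by
      rw [← pow_mul, ← pow_mul, ← pow_mul]
      congr 1
      ring
    rw [e, mul_div_cancel_left₀ _ (pow_ne_zero _ (pow_ne_zero _ (pow_ne_zero _ hν)))]

end scale

end Pool.Agent.Y160.T3
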