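import Pool.Agent.Y160.T2.Main

/-!
# Irreducible polynomials `g(x ^ M)`, and the conclusions for the surfaces
# `w ^ q = g(x) + (b(x) + c t ^ (p ^ d)) ^ q` with `g` and `g + b ^ q` irreducible
-/

set_option autoImplicit false
set_option linter.all false

open Polynomial

namespace Pool.Agent.Y160.T3

open Pool.Agent.TH115.GD (IsTower)
open Pool.Agent.Y160.FT
open Pool.Agent.Y160.HI (exists_tower)
open Pool.Agent.Y160.SL (Concl ShaBasis)

/-- `g(x ^ M)` is irreducible. -/
theorem irr_expand {K : Type} [Field K] {g : K[X]} (hg : g.Monic) (hirr : Irreducible g) {M : ℕ}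
    (hM : Odd M) (h : ∀ N : ℕ, N.Prime → N ∣ M → ∀ y : K, y ^ N ≠ g.coeff 0) :
    Irreducible (expand K M g) := by
  rw [expand_eq_comp_X_pow]
  refine irreducible_comp hg (monic_X_pow M) hirr ?_
  intro E _ _ x hx
  have hint : IsIntegral K x := not_not.mp fun h0 => by
    have h1 := minpoly.eq_zero h0
    rw [hx] at h1
    exact hirr.ne_zero h1
  rw [Polynomial.map_pow, Polynomial.map_X]
  refine X_pow_sub_C_irreducible_of_odd hM ?_
  intro N hN hNM b hb
  have hNodd : Odd N := hM.of_dvd_nat hNM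
  have e1 : (Algebra.norm K b) ^ N = (-1) ^ (IntermediateField.adjoin.powerBasis hint).dim *
      g.coeff 0 := by
    rw [← map_pow, hb, ← IntermediateField.adjoin.powerBasis_gen hint,
      Algebra.PowerBasis.norm_gen_eq_coeff_zero_minpoly, IntermediateField.adjoin.powerBasis_gen,
      IntermediateField.minpoly_gen, hx]
  refine h N hN hNM ((-1) ^ (IntermediateField.adjoin.powerBasis hint).dim * Algebra.norm K b) ?_
  rw [mul_pow, e1, ← pow_mul, ← mul_assoc, ← pow_add]
  have h2 : Even ((IntermediateField.adjoin.powerBasis hint).dim * N +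
      (IntermediateField.adjoin.powerBasis hint).dim) := by
    have : (IntermediateField.adjoin.powerBasis hint).dim * N +
      (IntermediateField.adjoin.powerBasis hint).dim =
      (IntermediateField.adjoin.powerBasis hint).dim * (N + 1) := by ring
    rw [this]
    exact (hNodd.add_one).mul_left _
  rw [h2.neg_one_pow, one_mul]

section cond

variable {k : Type} [Field k]

/-- The divisors of the powers of an irreducible polynomial. -/
theorem triv_of_irr {g : k[X]} (hirr : Irreducible g) {ℓ : ℕ} {A : k[X]} (h : VV g A) :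
    Triv ℓ g A := by
  obtain ⟨N, hN⟩ := h
  obtain ⟨i, -, hi⟩ := (dvd_prime_pow hirr.prime N).1 hN
  obtain ⟨u, hu⟩ := hi.symm
  obtain ⟨r, hr, hru⟩ := Polynomial.isUnit_iff.1 u.isUnit
  exact ⟨r, i, 1, hr.ne_zero, by rw [one_pow, mul_one, ← hu, ← hru, mul_comm]⟩

theorem split_list (ℓ : ℕ) (hℓ : 0 < ℓ) (b₀ : k[X]) (a : k) (as : List k)
    (l₁ : List (k[X] × k)) (b : k[X]) (a₁ : k) (l₂ : List (k[X] × k))
    (h : (b₀, a) :: (as.map fun a' => ((0 : k[X]), a')) = l₁ ++ (b, a₁) :: l₂) :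
    (a₁ = a ∨ a₁ ∈ as) ∧ ((l₁ = [] ∧ b = b₀) ∨ b = 0) ∧ EE ℓ (RingHom.id k[X]) l₁ b = b₀ := by
  cases l₁ with
  | nil =>
    simp only [List.nil_append, List.cons.injEq, Prod.mk.injEq] at h
    obtain ⟨⟨h1, h2⟩, h3⟩ := h
    refine ⟨Or.inl h2.symm, Or.inl ⟨rfl, h1.symm⟩, ?_⟩
    simp only [EE, ← h1]
  | cons x l₁ =>
    simp only [List.cons_append, List.cons.injEq] at h
    obtain ⟨h1, h2⟩ := h
    have hmem : (b, a₁) ∈ as.map fun a' => ((0 : k[X]), a') := by
      rw [h2]; simp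
    obtain ⟨a', ha', he⟩ := List.mem_map.1 hmem
    simp only [Prod.mk.injEq] at he
    obtain ⟨he1, he2⟩ := he
    have hl : ∀ y ∈ l₁, y.1 = 0 := by
      intro y hy
      have : y ∈ as.map fun a' => ((0 : k[X]), a') := by rw [h2]; simp [hy]
      obtain ⟨a'', _, he⟩ := List.mem_map.1 this
      rw [← he]
    refine ⟨Or.inr (he2 ▸ ha'), Or.inr he1.symm, ?_⟩
    rw [← h1, ← he1]
    simp only [EE, Pool.Agent.Y691.FT2.EE_zero ℓ hℓ as l₁ hl, zero_pow hℓ.ne', mul_zero, add_zero,
      RingHom.id_apply]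

/-- The conditions. -/
theorem cond_irr [PerfectField k] {p q s n : ℕ} {g b : k[X]} {c : k} (hp : p.Prime)
    (hq : q = p ^ (s + 1)) (hg : g.Monic) (hirr : Irreducible g)
    (hirr2 : Irreducible (g + b ^ q)) (hcop : p.Coprime g.natDegree) (hb : b ≠ 0)
    (hdeg : q * b.natDegree < g.natDegree) (hc : c ≠ 0) :
    Cond2 p q g ((b, c) :: (List.replicate n (1 : k)).map fun a' => ((0 : k[X]), a')) := by
  have hp0 : 0 < p := hp.pos
  have hq0 : 0 < q := by rw [hq]; exact Nat.pow_pos hp0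
  have hd : 0 < g.natDegree := hirr.natDegree_pos
  have key := fun l₁ b' a l₂ h => split_list p hp0 b c (List.replicate n (1 : k)) l₁ b' a l₂ h
  refine
    { monic := hg
      sep := PerfectField.separable_of_irreducible hirr
      cop := hcop
      redei := fun c A _ hA _ => triv_of_irr hirr hA
      ne := ?_
      deg := ?_
      cpr := ?_
      gsep := ?_
      step := fun _ _ _ _ _ _ _ _ _ hA _ => triv_of_irr hirr hA
      row := ?_ }
  · intro l₁ b a₁ l₂ hl
    rcases (key l₁ b a₁ l₂ hl).1 with h | h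
    · rwa [h]
    · rw [List.eq_of_mem_replicate h]; exact one_ne_zero
  · intro l₁ b' a₁ l₂ hl
    rcases (key l₁ b' a₁ l₂ hl).2.1 with ⟨h, h'⟩ | h
    · rw [h, h', List.length_nil, pow_zero, mul_one]
      exact hdeg
    · rw [h, natDegree_zero, mul_zero]
      exact hd
  · intro l₁ b' a₁ l₂ hl
    rw [(key l₁ b' a₁ l₂ hl).2.2]
    rw [(hirr.coprime_iff_not_dvd)]
    intro h
    have h1 := natDegree_le_of_dvd h hb
    have h2 : 1 * b.natDegree ≤ q * b.natDegree := Nat.mul_le_mul hq0 le_rfl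
    omega
  · intro l₁ b' a₁ l₂ hl
    rw [(key l₁ b' a₁ l₂ hl).2.2]
    exact PerfectField.separable_of_irreducible hirr2
  · intro l₁ b' a₁ l₂ hl c B _ hB _
    rw [(key l₁ b' a₁ l₂ hl).2.2] at hB ⊢
    exact triv_of_irr hirr2 hB

theorem EE_rep {p : ℕ} (n : ℕ) : EE p (mapRingHom (C : k →+* k[X]))
    (List.replicate n ((0 : k[X]), (1 : k))) (C X) = C (X ^ p ^ n) := by
  induction n with
  | zero => rw [List.replicate_zero, pow_zero, pow_one]; rfl
  | succ n ih =>
    rw [List.replicate_succ]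
    show mapRingHom C (0 : k[X]) + mapRingHom C (C (1 : k)) *
      (EE p (mapRingHom C) (List.replicate n ((0 : k[X]), (1 : k))) (C X)) ^ p = _
    rw [ih, C_1, map_zero, map_one, zero_add, one_mul, ← C_pow, ← pow_mul, ← pow_succ]

theorem ff_eq {p q n : ℕ} (g b : k[X]) (c : k) :
    ff p q g ((b, c) :: (List.replicate n (1 : k)).map fun a' => ((0 : k[X]), a')) =
      g.map C + (b.map C + C (C c * X ^ (p ^ (n + 1)))) ^ q := by
  unfold ff
  congr 2
  show mapRingHom C b + mapRingHom C (C c) *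
    (EE p (mapRingHom C) ((List.replicate n (1 : k)).map fun a' => ((0 : k[X]), a')) (C X)) ^ p = _
  rw [List.map_replicate, EE_rep, coe_mapRingHom, Polynomial.map_C, ← C_pow, ← pow_mul, ← pow_succ,
    ← C_mul]

/-- The conclusions over a perfect field. -/
theorem conclT [PerfectField k] {p q s : ℕ} {g b : k[X]} {c ζ : k} (hp : p.Prime)
    (hq : q = p ^ (s + 1)) (hζ : IsPrimitiveRoot ζ q) (hg : g.Monic) (hirr : Irreducible g)
    (hirr2 : Irreducible (g + b ^ q)) (hcop : p.Coprime g.natDegree) (hb : b ≠ 0)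
    (hdeg : q * b.natDegree < g.natDegree) (hc : c ≠ 0)
    {d : ℕ} (hd : 0 < d) {k' K F : Type} [Field k'] [Algebra k k'] [Field K] [Algebra k[X] K]
    [IsFractionRing k[X] K] [Field F] [Algebra k'[X] F] [IsFractionRing k'[X] F] [Algebra K F]
    (hT : IsTower k k' K F) :
    Concl p q 0 k k' F
      ((g.map C + (b.map C + C (C c * X ^ (p ^ d))) ^ q).map (algebraMap k[X] K)) := by
  obtain ⟨n, rfl⟩ : ∃ n, d = n + 1 := ⟨d - 1, by omega⟩
  have hC := cond_irr (n := n) hp hq hg hirr hirr2 hcop hb hdeg hc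
  obtain ⟨h1, h2, h3⟩ := conclA (F := F) (k' := k') (K := K) hT hp hq hζ hC.base
    (asm2 hp hq hζ hC) (fun _ : Fin (0 + 1) => g) (fun _ => ⟨hirr, hg⟩)
    (fun i j _ => Subsingleton.elim (α := Fin 1) i j) (by
      rw [Finset.prod_const, Finset.card_univ, Fintype.card_fin, zero_add, pow_one])
  rw [ff_eq] at h1 h2 h3
  exact ⟨SL.tateAt_of h1, SL.shaTriv_of h2, h3⟩

/-- The conclusions for the Jacobian. -/
theorem shaT [PerfectField k] {p q s : ℕ} {g b : k[X]} {c ζ : k} (hp : p.Prime)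
    (hq : q = p ^ (s + 1)) (hζ : IsPrimitiveRoot ζ q) (hg : g.Monic) (hirr : Irreducible g)
    (hirr2 : Irreducible (g + b ^ q)) (hcop : p.Coprime g.natDegree) (hb : b ≠ 0)
    (hdeg : q * b.natDegree < g.natDegree) (hc : c ≠ 0)
    {d : ℕ} (hd : 0 < d) (K : Type) [Field K] [Algebra k[X] K] [IsFractionRing k[X] K] :
    ShaBasis p q 0 k
      ((g.map C + (b.map C + C (C c * X ^ (p ^ d))) ^ q).map (algebraMap k[X] K)) := by
  obtain ⟨k', F, _, _, _, _, _, _, hT⟩ := exists_tower k K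
  have h := conclT (F := F) (k' := k') (K := K) hp hq hζ hg hirr hirr2 hcop hb hdeg hc hd hT
  exact ⟨h.sha, h.basis⟩

end cond

end Pool.Agent.Y160.T3
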