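import Pool.Agent.Y160.T3.Count

/-!
# The number of irreducible polynomials whose constant term is not a power
-/

set_option autoImplicit false
set_option linter.all false

open Polynomial IntermediateField

namespace Pool.Agent.Y160.T3

section low

variable {F κ : Type} [Field F] [Fintype F] [Field κ] [Fintype κ] [Algebra F κ]

theorem pow_card_minpoly (θ : κ) : θ ^ (Fintype.card F ^ (minpoly F θ).natDegree) = θ := by
  have hint : IsIntegral F θ := IsIntegral.of_finite F θ
  haveI : Fintype F⟮θ⟯ := Fintype.ofFinite _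
  have h1 : Fintype.card F⟮θ⟯ = Fintype.card F ^ (minpoly F θ).natDegree := by
    rw [Module.card_eq_pow_finrank (K := F), adjoin.finrank hint]
  have h2 := FiniteField.pow_card (AdjoinSimple.gen F θ)
  rw [h1] at h2
  have h3 := congrArg (algebraMap F⟮θ⟯ κ) h2
  rwa [map_pow, AdjoinSimple.algebraMap_gen] at h3

open Classical in
/-- There are few elements of low degree. -/
theorem low_card {m : ℕ} (hm : 0 < m) :
    (Finset.univ.filter fun θ : κ => (minpoly F θ).natDegree < m).card ≤
      m * Fintype.card F ^ (m - 1) := by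
  have hn : 1 < Fintype.card F := Fintype.one_lt_card
  have h1 : (Finset.univ.filter fun θ : κ => (minpoly F θ).natDegree < m) ⊆
      (Finset.Ico 1 m).biUnion fun d => ((X ^ (Fintype.card F ^ d) - X : κ[X]).roots).toFinset := by
    intro θ hθ
    have hθ' := (Finset.mem_filter.1 hθ).2
    have hd : 0 < (minpoly F θ).natDegree := minpoly.natDegree_pos (IsIntegral.of_finite F θ)
    refine Finset.mem_biUnion.2 ⟨(minpoly F θ).natDegree, Finset.mem_Ico.2 ⟨hd, hθ'⟩, ?_⟩
    rw [Multiset.mem_toFinset, mem_roots (FiniteField.X_pow_card_pow_sub_X_ne_zero κ hd.ne' hn),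
      IsRoot.def, eval_sub, eval_pow, eval_X, pow_card_minpoly, sub_self]
  refine (Finset.card_le_card h1).trans (Finset.card_biUnion_le.trans ?_)
  have h2 : ∀ d ∈ Finset.Ico 1 m, ((X ^ (Fintype.card F ^ d) - X : κ[X]).roots).toFinset.card ≤
      Fintype.card F ^ (m - 1) := by
    intro d hd
    rw [Finset.mem_Ico] at hd
    refine (Multiset.toFinset_card_le _).trans ((card_roots' _).trans ?_)
    rw [FiniteField.X_pow_card_pow_sub_X_natDegree_eq κ (by omega) hn]
    exact Nat.pow_le_pow_right (by omega) (by omega)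
  refine (Finset.sum_le_sum h2).trans ?_
  rw [Finset.sum_const, Nat.card_Ico, smul_eq_mul]
  exact Nat.mul_le_mul (by omega) le_rfl

/-- The constant term and the norm. -/
theorem norm_coeff {θ : κ} (h : (minpoly F θ).natDegree = Module.finrank F κ) :
    Algebra.norm F θ = (-1) ^ (Module.finrank F κ) * (minpoly F θ).coeff 0 := by
  have hint : IsIntegral F θ := IsIntegral.of_finite F θ
  have h1 : Module.finrank F⟮θ⟯ κ = 1 := by
    have h2 := Module.finrank_mul_finrank F F⟮θ⟯ κ
    rw [adjoin.finrank hint, h] at h2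
    have h3 : 0 < Module.finrank F κ := Module.finrank_pos
    exact Nat.eq_of_mul_eq_mul_left h3 (by rw [h2, mul_one])
  rw [Algebra.norm_eq_norm_adjoin F θ, h1, pow_one, ← adjoin.powerBasis_gen hint,
    Algebra.PowerBasis.norm_gen_eq_coeff_zero_minpoly, adjoin.powerBasis_gen, minpoly_gen]
  rw [adjoin.powerBasis_dim, h]

end low

/-- An element which is not an `N`-th power for all primes `N` dividing `n - 1`. -/
theorem gen_ex (F : Type) [Field F] [Fintype F] : ∃ g : F, g ≠ 0 ∧ ∀ N : ℕ, N.Prime →
    N ∣ Fintype.card F - 1 → ∀ y : F, y ^ N ≠ g := by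
  obtain ⟨u, hu⟩ := IsCyclic.exists_generator (α := Fˣ)
  refine ⟨u, u.ne_zero, ?_⟩
  intro N hN hNF y hy
  have hy0 : y ≠ 0 := by
    rintro rfl
    rw [zero_pow hN.ne_zero] at hy
    exact u.ne_zero hy.symm
  have h1 : orderOf u = Fintype.card F - 1 := by
    rw [orderOf_eq_card_of_forall_mem_zpowers hu, Nat.card_units, Nat.card_eq_fintype_card]
  obtain ⟨c, hc⟩ := hNF
  have hn : 1 < Fintype.card F := Fintype.one_lt_card
  have hc0 : 0 < c := by
    rcases Nat.eq_zero_or_pos c with h | h
    · rw [h, mul_zero] at hc; omega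
    · exact h
  have h2 : u ^ c = 1 := by
    apply Units.ext
    rw [Units.val_pow_eq_pow_val, Units.val_one, ← hy, ← pow_mul, ← hc]
    exact FiniteField.pow_card_sub_one_eq_one y hy0
  have h3 := orderOf_dvd_of_pow_eq_one h2
  rw [h1, hc] at h3
  have h4 := Nat.le_of_dvd hc0 h3
  have h5 := hN.two_le
  nlinarith

open Classical in
/-- The number of the good polynomials. -/
theorem irr_count {m R : ℕ} (hm : 0 < m) (hR : Odd R) (F : Type) [Field F] [Fintype F]
    (hRF : R ∣ Fintype.card F - 1) (hn : 2 * (R * m) + 2 ≤ Fintype.card F) :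
    Fintype.card F ^ m ≤ 2 * (R * m) *
      (Finset.univ.filter fun a : Fin m → F => GoodP R (mF a)).card := by
  obtain ⟨c, hcc⟩ := CharP.exists F
  haveI : Fact c.Prime := ⟨CharP.char_is_prime F c⟩
  haveI : NeZero m := ⟨hm.ne'⟩
  let κ := FiniteField.Extension F c m
  haveI : Finite κ := inferInstanceAs (Finite (FiniteField.Extension F c m))
  haveI : Fintype κ := Fintype.ofFinite κ
  have hfr : Module.finrank F κ = m := FiniteField.finrank_extension F c m
  have hcard : Fintype.card κ = Fintype.card F ^ m := by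
    rw [Module.card_eq_pow_finrank (K := F), hfr]
  have hR0 : 0 < R := hR.pos
  obtain ⟨g₀, hg₀, hg₀N⟩ := gen_ex F
  obtain ⟨γ, hγ⟩ := FiniteField.norm_surjective F κ g₀
  have hγ0 : γ ≠ 0 := by
    rintro rfl
    rw [Algebra.norm_zero] at hγ
    exact hg₀ hγ.symm
  -- the set of the elements `γ y ^ R`
  set Θ : Finset κ := (Finset.univ.erase (0 : κ)).image fun y => γ * y ^ R with hΘ
  have h1 : Fintype.card F ^ m - 1 ≤ R * Θ.card := by
    have e1 := Finset.card_le_mul_card_image (f := fun y : κ => γ * y ^ R)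
      (Finset.univ.erase (0 : κ)) R (fun b hb => by
        obtain ⟨y₀, -, hy₀⟩ := Finset.mem_image.1 hb
        have e2 : ((Finset.univ.erase (0 : κ)).filter fun y => γ * y ^ R = b) ⊆
            (nthRoots R (y₀ ^ R)).toFinset := by
          intro y hy
          have e3 := (Finset.mem_filter.1 hy).2
          rw [← hy₀] at e3
          rw [Multiset.mem_toFinset, mem_nthRoots hR0]
          exact mul_left_cancel₀ hγ0 e3
        exact (Finset.card_le_card e2).trans ((Multiset.toFinset_card_le _).trans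
          (card_nthRoots R _)))
    rw [Finset.card_erase_of_mem (Finset.mem_univ _), Finset.card_univ, hcard] at e1
    exact e1
  set Θ' : Finset κ := Θ.filter fun θ => (minpoly F θ).natDegree = m with hΘ'
  have hle : ∀ θ : κ, (minpoly F θ).natDegree ≤ m := by
    intro θ
    exact (minpoly.natDegree_le θ).trans hfr.le
  have h2 : Θ.card ≤ Θ'.card + m * Fintype.card F ^ (m - 1) := by
    have e1 : Θ ⊆ Θ' ∪ (Finset.univ.filter fun θ : κ => (minpoly F θ).natDegree < m) := by
      intro θ hθ
      rw [Finset.mem_union]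
      rcases (hle θ).lt_or_eq with h | h
      · exact Or.inr (Finset.mem_filter.2 ⟨Finset.mem_univ _, h⟩)
      · exact Or.inl (Finset.mem_filter.2 ⟨hθ, h⟩)
    exact (Finset.card_le_card e1).trans ((Finset.card_union_le _ _).trans
      (Nat.add_le_add_left (low_card hm) _))
  -- the minimal polynomials
  have hmF : ∀ θ ∈ Θ', mF (fun i : Fin m => (minpoly F θ).coeff i) = minpoly F θ := by
    intro θ hθ
    exact mF_of (minpoly.monic (IsIntegral.of_finite F θ)) (Finset.mem_filter.1 hθ).2
  have h3 : Θ'.card ≤ m * (Finset.univ.filter fun a : Fin m → F => GoodP R (mF a)).card := by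
    have e1 : (Θ'.image fun θ => fun i : Fin m => (minpoly F θ).coeff i) ⊆
        Finset.univ.filter fun a : Fin m → F => GoodP R (mF a) := by
      intro a ha
      obtain ⟨θ, hθ, rfl⟩ := Finset.mem_image.1 ha
      rw [Finset.mem_filter]
      refine ⟨Finset.mem_univ _, ?_⟩
      rw [hmF θ hθ]
      refine ⟨minpoly.irreducible (IsIntegral.of_finite F θ), ?_⟩
      intro N hN hNR y hy
      obtain ⟨hθ1, hθ2⟩ := Finset.mem_filter.1 hθ
      obtain ⟨z, hz, hz'⟩ := Finset.mem_image.1 hθ1
      have hz0 : z ≠ 0 := (Finset.mem_erase.1 hz).1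
      have e2 := norm_coeff (F := F) (θ := θ) (by rw [hθ2, hfr])
      rw [← hz', map_mul, map_pow, hγ, hfr, hz', ← hy] at e2
      obtain ⟨R', rfl⟩ := hNR
      have hNodd : Odd N := hR.of_dvd_nat (Dvd.intro _ rfl)
      have hnz : Algebra.norm F z ^ R' ≠ 0 := pow_ne_zero _ (Algebra.norm_ne_zero_iff.2 hz0)
      have e3 : ((-1) ^ m * y / Algebra.norm F z ^ R') ^ N = g₀ := by
        rw [div_pow, mul_pow, ← pow_mul, ← pow_mul, mul_comm R' N, mul_comm m N, pow_mul (-1 : F) N m,
          hNodd.neg_one_pow, ← e2, mul_div_cancel_right₀ _ (pow_ne_zero _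
            (Algebra.norm_ne_zero_iff.2 hz0))]
      exact hg₀N N hN ((Dvd.intro _ rfl : N ∣ N * R').trans hRF) _ e3
    have e4 := Finset.card_le_mul_card_image (f := fun θ : κ => fun i : Fin m =>
      (minpoly F θ).coeff i) Θ' m (fun a ha => by
        obtain ⟨θ₀, hθ₀, hθ₀'⟩ := Finset.mem_image.1 ha
        have e5 : (Θ'.filter fun θ => (fun i : Fin m => (minpoly F θ).coeff i) = a) ⊆
            ((minpoly F θ₀).map (algebraMap F κ)).roots.toFinset := by
          intro θ hθ
          obtain ⟨hθ1, hθ2⟩ := Finset.mem_filter.1 hθ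
          have e6 : minpoly F θ = minpoly F θ₀ := by
            rw [← hmF θ hθ1, ← hmF θ₀ hθ₀, hθ2, hθ₀']
          have hne : (minpoly F θ₀).map (algebraMap F κ) ≠ 0 :=
            (Polynomial.map_ne_zero (minpoly.ne_zero (IsIntegral.of_finite F θ₀)))
          rw [Multiset.mem_toFinset, mem_roots hne, IsRoot.def, eval_map_algebraMap, ← e6,
            minpoly.aeval]
        refine (Finset.card_le_card e5).trans ((Multiset.toFinset_card_le _).trans
          ((card_roots' _).trans ?_))
        exact natDegree_map_le.trans (hle θ₀))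
    exact e4.trans (Nat.mul_le_mul le_rfl (Finset.card_le_card e1))
  -- arithmetic
  set a := (Finset.univ.filter fun a : Fin m → F => GoodP R (mF a)).card with ha
  set n := Fintype.card F with hn'
  obtain ⟨m', rfl⟩ : ∃ m', m = m' + 1 := ⟨m - 1, by omega⟩
  rw [Nat.add_sub_cancel] at h2
  have e7 : n ^ (m' + 1) - 1 ≤ R * ((m' + 1) * a) + R * (m' + 1) * n ^ m' := by
    calc n ^ (m' + 1) - 1 ≤ R * Θ.card := h1
      _ ≤ R * ((m' + 1) * a + (m' + 1) * n ^ m') :=
        Nat.mul_le_mul le_rfl (h2.trans (Nat.add_le_add_right h3 _))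
      _ = _ := by ring
  have e8 : (2 * (R * (m' + 1)) + 2) * n ^ m' ≤ n ^ (m' + 1) := by
    rw [pow_succ, mul_comm (n ^ m') n]
    exact Nat.mul_le_mul hn le_rfl
  have e9 : 0 < n ^ m' := Nat.pow_pos (by omega)
  have e10 : (2 * (R * (m' + 1)) + 2) * n ^ m' = 2 * (R * (m' + 1) * n ^ m') + 2 * n ^ m' := by ring
  have e11 : 2 * (R * (m' + 1)) * a = 2 * (R * ((m' + 1) * a)) := by ring
  omega

end Pool.Agent.Y160.T3
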