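import Pool.Agent.Y160.T3.Pt
import Pool.Agent.Y160.T2.Sieve

/-!
# The Tate conjecture for almost all surfaces `w ^ q = g(x ^ M) + (b(x ^ M) + c t ^ (p ^ d)) ^ q`
-/

set_option autoImplicit false
set_option linter.all false

open Polynomial Filter Topology

namespace Pool.Agent.Y160.T3

open Pool.Agent.Y160.SL (coefG coefB coefC towSurf TowConcl TowWorks IrrMod)
open Pool.Agent.Y160.T2 (to_int prim_red sieve)

theorem every {p s m r R : ℕ} (hp : p.Prime) (hcop : p.Coprime m) (hqr : p ^ (s + 1) * r < m)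
    (hR : Odd R) (hpR : p.Coprime R) (k : Type) [Field k] [NumberField k] {ζ : k}
    (hζ : IsPrimitiveRoot ζ (p ^ (s + 1))) :
    Tendsto (fun H : ℕ => (({v : Fin (m + (r + 2)) → ℤ | (∀ i, |v i| ≤ (H : ℤ)) ∧
      ¬ TowWorks p (p ^ (s + 1)) m R k (coefG m r v) (coefB m r v) (coefC m r v)}.ncard : ℕ) : ℝ) /
        (2 * (H : ℝ) + 1) ^ (m + (r + 2))) atTop (𝓝 0) := by
  classical
  have hm : 0 < m := by omega
  have hR0 : 0 < R := hR.pos
  set q := p ^ (s + 1) with hq
  have hq0 : 0 < q := by rw [hq]; exact Nat.pow_pos hp.pos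
  have hD : 0 < 16 * (R * m) ^ 2 := by positivity
  refine sieve hD {v : Fin (m + (r + 2)) → ℤ |
    ¬ TowWorks p q m R k (coefG m r v) (coefB m r v) (coefC m r v)} fun B => ?_
  obtain ⟨P, hP, hPB, ⟨σ⟩, hRP⟩ := place_R k hR0 (B + q * m * R + 4 * (R * m) + 2)
  have hne : ((q * m * R : ℕ) : ZMod P) ≠ 0 := by
    intro h0
    rw [ZMod.natCast_eq_zero_iff] at h0
    have := Nat.le_of_dvd (by positivity) h0
    omega
  have hqP : ((q : ℕ) : ZMod P) ≠ 0 := by
    intro h0
    apply hne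
    rw [Nat.cast_mul, Nat.cast_mul, h0, zero_mul, zero_mul]
  have hcoe : Function.Injective (PadicInt.Coe.ringHom (p := P)) := fun a b h => PadicInt.ext h
  obtain ⟨ζ', hζ'⟩ := to_int σ (x := ζ) (IsIntegral.of_pow hq0 (by
    rw [hζ.pow_eq_one]; exact isIntegral_one))
  have h2 : IsPrimitiveRoot ζ' q := by
    have h3 : IsPrimitiveRoot (σ ζ) q := hζ.map_of_injective σ.injective
    rw [← hζ'] at h3
    exact IsPrimitiveRoot.of_map_of_injective (f := PadicInt.Coe.ringHom (p := P)) h3 hcoe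
  have hζb : IsPrimitiveRoot (PadicInt.toZMod ζ') q := prim_red _ hqP h2
  haveI : Fintype (ZMod P) := ZMod.fintype P
  have hcard : Fintype.card (ZMod P) = P := ZMod.card P
  set S : Finset (Fin (m + (r + 2)) → ZMod P) := Finset.univ.filter fun v =>
    coefC m r v ≠ 0 ∧ coefB m r v ≠ 0 ∧ GoodP R (coefG m r v) ∧
      GoodP R (coefG m r v + coefB m r v ^ q) with hS
  refine ⟨P, by omega, hP.out, S, ?_, ?_⟩
  · have h := vec_count (m := m) (r := r) (q := q) (R := R) hR hqr hq0 (by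
      rw [hq]; exact Nat.Coprime.pow_left _ (hpR.mul_right hcop)) (ZMod P) (by rw [hcard]; exact hRP)
      (by rw [hcard]; omega) S (fun v h1 h2 h3 h4 => by
        rw [hS, Finset.mem_filter]
        exact ⟨Finset.mem_univ _, h1, h2, h3, h4⟩)
    rwa [hcard] at h
  · intro v hv hmem
    rw [hS, Finset.mem_filter] at hmem
    obtain ⟨-, h1, h2, h3, h4⟩ := hmem
    exact hv ⟨P, hP, ⟨σ⟩, tow_concl hp hq hcop hqr hR hpR hζb hne h1 h2 h3 h4⟩

end Pool.Agent.Y160.T3
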