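import Pool.Agent.Y160.T3.Pairs
import Pool.Agent.Y160.T3.IrrCount
import Pool.Agent.Y160.SL.Gen

/-!
# Counting the good vectors of coefficients over a finite field
-/

set_option autoImplicit false
set_option linter.all false

open Polynomial

namespace Pool.Agent.Y160.T3

open Pool.Agent.Y160.SL (coefG coefB coefC)

theorem bez {q n : ℕ} (hq : 0 < q) (h : q.Coprime n) : ∃ j b : ℕ, b * q = j * n + 1 := by
  obtain ⟨x, -, hx⟩ := Nat.exists_mul_mod_eq_of_coprime (k := q) (n := n) (q - 1) h.symm hq.ne'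
  have h1 : x * n ≡ q - 1 [MOD q] := by rw [mul_comm]; exact hx
  have h2 : x * n + 1 ≡ q - 1 + 1 [MOD q] := h1.add_right 1
  rw [Nat.sub_add_cancel hq] at h2
  obtain ⟨b, hb⟩ := Nat.modEq_zero_iff_dvd.1 (h2.trans (by rw [Nat.modEq_zero_iff_dvd]))
  exact ⟨x, b, by rw [hb, mul_comm]⟩

theorem vec_count {m r q R : ℕ} (hR : Odd R) (hqr : q * r < m) (hq0 : 0 < q)
    (hcop : q.Coprime (R * m)) (F : Type) [Field F] [Fintype F] (hRF : R ∣ Fintype.card F - 1)
    (hn : 4 * (R * m) + 2 ≤ Fintype.card F) (S : Finset (Fin (m + (r + 2)) → F))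
    (hS : ∀ v : Fin (m + (r + 2)) → F, coefC m r v ≠ 0 → coefB m r v ≠ 0 →
      GoodP R (coefG m r v) → GoodP R (coefG m r v + coefB m r v ^ q) → v ∈ S) :
    Fintype.card F ^ (m + (r + 2)) ≤ 16 * (R * m) ^ 2 * S.card := by
  classical
  have hm : 0 < m := by omega
  obtain ⟨j, b₀, hb⟩ := bez hq0 hcop
  have h1 := irr_count hm hR F hRF (by omega)
  have h2 := pair_count (F := F) (r := r) (D := 2 * (R * m)) hqr hq0.ne' hb (by omega) h1
  set Y := (Finset.univ.filter fun x : (Fin m → F) × (Fin (r + 1) → F) => x.2 ≠ 0 ∧ GoodP R (mF x.1) ∧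
    GoodP R (mF x.1 + bF x.2 ^ q)) with hY
  have h3 : Y.card * (Fintype.card F - 1) ≤ S.card := by
    have e1 : (Y ×ˢ (Finset.univ.erase (0 : F))).card = Y.card * (Fintype.card F - 1) := by
      rw [Finset.card_product, Finset.card_erase_of_mem (Finset.mem_univ _), Finset.card_univ]
    rw [← e1]
    have hG : ∀ (a : Fin m → F) (w : Fin (r + 2) → F), coefG m r (Fin.append a w) = mF a := by
      intro a w
      unfold coefG mF
      congr 1
      refine Finset.sum_congr rfl fun i _ => ?_
      rw [Fin.append_left]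
    have hB : ∀ (a : Fin m → F) (w : Fin (r + 1) → F) (c : F),
        coefB m r (Fin.append a (Fin.snoc (α := fun _ => F) w c)) = bF w := by
      intro a w c
      unfold coefB bF
      refine Finset.sum_congr rfl fun i _ => ?_
      rw [Fin.append_right, Fin.snoc_castSucc]
    have hC : ∀ (a : Fin m → F) (w : Fin (r + 1) → F) (c : F),
        coefC m r (Fin.append a (Fin.snoc (α := fun _ => F) w c)) = c := by
      intro a w c
      unfold coefC
      rw [Fin.append_right, Fin.snoc_last]
    refine Finset.card_le_card_of_injOn (fun y =>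
      Fin.append y.1.1 (Fin.snoc (α := fun _ => F) y.1.2 y.2)) ?_ ?_
    · rintro ⟨⟨a, w⟩, c⟩ hy
      rw [Finset.mem_coe, Finset.mem_product, Finset.mem_erase, hY, Finset.mem_filter] at hy
      obtain ⟨⟨-, hw, hg, hg2⟩, hc, -⟩ := hy
      rw [Finset.mem_coe]
      refine hS _ ?_ ?_ ?_ ?_
      · rw [hC]; exact hc
      · rw [hB]
        intro h0
        apply hw
        exact bF_inj (h0.trans bF_zero.symm)
      · rw [hG]; exact hg
      · rw [hG, hB]; exact hg2
    · rintro ⟨⟨a, w⟩, c⟩ _ ⟨⟨a', w'⟩, c'⟩ _ h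
      have h : Fin.append a (Fin.snoc (α := fun _ => F) w c) =
        Fin.append a' (Fin.snoc (α := fun _ => F) w' c') := h
      have e2 : a = a' := by
        have := congrArg (coefG m r) h
        rw [hG, hG] at this
        exact mF_inj this
      have e3 : w = w' := by
        have := congrArg (coefB m r) h
        rw [hB, hB] at this
        exact bF_inj this
      have e4 : c = c' := by
        have := congrArg (coefC m r) h
        rwa [hC, hC] at this
      rw [e2, e3, e4]
  have hn2 : 2 ≤ Fintype.card F := by omega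
  have h4 : Fintype.card F ≤ 2 * (Fintype.card F - 1) := by omega
  calc Fintype.card F ^ (m + (r + 2)) = Fintype.card F ^ (m + r + 1) * Fintype.card F := by
        rw [← pow_succ]; congr 1
    _ ≤ (2 * (2 * (R * m)) ^ 2 * Y.card) * (2 * (Fintype.card F - 1)) := Nat.mul_le_mul h2 h4
    _ = 16 * (R * m) ^ 2 * (Y.card * (Fintype.card F - 1)) := by ring
    _ ≤ 16 * (R * m) ^ 2 * S.card := Nat.mul_le_mul le_rfl h3

end Pool.Agent.Y160.T3
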