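import Pool.Agent.Y160.T3.Irr
import Pool.Agent.Y160.T3.Vec
import Pool.Agent.Y160.T2.Point

/-!
# The conclusions for vectors of integers with good residues modulo `P`
-/

set_option autoImplicit false
set_option linter.all false

open Polynomial

namespace Pool.Agent.Y160.T3

open Pool.Agent.TH115.GD (IsTower)
open Pool.Agent.Y160.SL (coefG coefB coefC towSurf TowConcl IrrMod GenConcl RedConcl overField)
open Pool.Agent.Y160.T2 (vs res to_int prim_red embed_ex)

section maps

variable {A B : Type} [CommRing A] [CommRing B] (f : A →+* B) {m r : ℕ} (v : Fin (m + (r + 2)) → A)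

theorem coefG_map : (coefG m r v).map f = coefG m r (fun i => f (v i)) := by
  unfold coefG
  rw [Polynomial.map_add, Polynomial.map_pow, Polynomial.map_X, Polynomial.map_sum]
  congr 1
  refine Finset.sum_congr rfl fun i _ => ?_
  rw [Polynomial.map_mul, Polynomial.map_C, Polynomial.map_pow, Polynomial.map_X]

theorem coefB_map : (coefB m r v).map f = coefB m r (fun i => f (v i)) := by
  unfold coefB
  rw [Polynomial.map_sum]
  refine Finset.sum_congr rfl fun i _ => ?_
  rw [Polynomial.map_mul, Polynomial.map_C, Polynomial.map_pow, Polynomial.map_X]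

theorem coefG_eq : coefG m r v = mF (fun i : Fin m => v (Fin.castAdd (r + 2) i)) := rfl

theorem coefB_eq : coefB m r v = bF (fun j : Fin (r + 1) => v (Fin.natAdd m j.castSucc)) := rfl

theorem coefB_natDegree : (coefB m r v).natDegree ≤ r := by
  rw [coefB_eq, natDegree_le_iff_coeff_eq_zero]
  intro N hN
  exact coeff_eq_zero_of_degree_lt ((bF_deg _).trans_le (by exact_mod_cast hN))

theorem coefG_monic [Nontrivial A] : (coefG m r v).Monic := mF_monic _

theorem coefG_natDegree [Nontrivial A] : (coefG m r v).natDegree = m := mF_natDegree _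

theorem sum_monic [Nontrivial A] {q : ℕ} (hqr : q * r < m) :
    (coefG m r v + coefB m r v ^ q).Monic := by
  refine (coefG_monic v).add_of_left ?_
  refine degree_lt_degree ?_
  rw [coefG_natDegree]
  exact (natDegree_pow_le.trans (Nat.mul_le_mul le_rfl (coefB_natDegree v))).trans_lt hqr

end maps

/-- The surface over a field. -/
theorem towSurf_map {E : Type} [Field E] (q M n : ℕ) (g b : ℤ[X]) (c : ℤ) :
    (towSurf q M n g b c).map (mapRingHom (Int.castRingHom E)) =
      ((expand ℤ M g).map (Int.castRingHom E)).map C +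
        (((expand ℤ M b).map (Int.castRingHom E)).map C + C (C (c : E) * X ^ n)) ^ q := by
  have key : ∀ h : ℤ[X], ((h.map C : ℤ[X][X]).map (mapRingHom (Int.castRingHom E))) =
      (h.map (Int.castRingHom E)).map C := by
    intro h
    rw [Polynomial.map_map, Polynomial.map_map]
    congr 1
    refine RingHom.ext fun x => ?_
    rw [RingHom.comp_apply, RingHom.comp_apply, Polynomial.coe_mapRingHom, Polynomial.map_C]
  unfold towSurf
  rw [Polynomial.map_add, Polynomial.map_pow, Polynomial.map_add, key, key, Polynomial.map_C,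
    Polynomial.coe_mapRingHom, Polynomial.map_mul, Polynomial.map_pow, Polynomial.map_X,
    Polynomial.map_C, eq_intCast]

section prime

variable {P : ℕ} [hP : Fact P.Prime]

/-- Irreducibility over a subfield of the field of the `P`-adic numbers. -/
theorem irr_up {E : Type} [Field E] (σ : E →+* ℚ_[P]) {h : ℤ[X]} (hm : h.Monic)
    (hirr : Irreducible (h.map (Int.castRingHom (ZMod P)))) :
    Irreducible (h.map (Int.castRingHom E)) := by
  have h1 : (h.map (Int.castRingHom (vs σ))).Monic := hm.map _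
  have h2 : Irreducible (h.map (Int.castRingHom (vs σ))) := by
    refine h1.irreducible_of_irreducible_map (res σ) _ ?_
    rw [Polynomial.map_map, RingHom.ext_int ((res σ).comp (Int.castRingHom (vs σ)))
      (Int.castRingHom (ZMod P))]
    exact hirr
  have h3 := (h1.irreducible_iff_irreducible_map_fraction_map (K := E)).1 h2
  rwa [Polynomial.map_map, RingHom.ext_int ((algebraMap (vs σ) E).comp (Int.castRingHom (vs σ)))
    (Int.castRingHom E)] at h3

theorem tow_concl {p q s m r R : ℕ} (hp : p.Prime) (hq : q = p ^ (s + 1)) (hcop : p.Coprime m)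
    (hqr : q * r < m) (hR : Odd R) (hpR : p.Coprime R) {ζb : ZMod P} (hζb : IsPrimitiveRoot ζb q)
    (hne : ((q * m * R : ℕ) : ZMod P) ≠ 0) {v : Fin (m + (r + 2)) → ℤ}
    (hc : coefC m r (fun i => (v i : ZMod P)) ≠ 0) (hb : coefB m r (fun i => (v i : ZMod P)) ≠ 0)
    (hg : GoodP R (coefG m r (fun i => (v i : ZMod P))))
    (hg2 : GoodP R (coefG m r (fun i => (v i : ZMod P)) + coefB m r (fun i => (v i : ZMod P)) ^ q)) :
    TowConcl p q m R (coefG m r v) (coefB m r v) (coefC m r v) P := by
  have hq0 : 0 < q := by rw [hq]; exact Nat.pow_pos hp.pos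
  have eG : (coefG m r v).map (Int.castRingHom (ZMod P)) = coefG m r (fun i => (v i : ZMod P)) :=
    coefG_map _ v
  have eB : (coefB m r v).map (Int.castRingHom (ZMod P)) = coefB m r (fun i => (v i : ZMod P)) :=
    coefB_map _ v
  have hc' : ((coefC m r v : ℤ) : ZMod P) ≠ 0 := hc
  have hM : ∀ M e : ℕ, M ∣ R ^ e → Odd M ∧ 0 < M ∧ p.Coprime M ∧ ∀ N : ℕ, N.Prime → N ∣ M → N ∣ R := by
    intro M e hMe
    have h1 : Odd M := hR.pow.of_dvd_nat hMe
    exact ⟨h1, h1.pos, (hpR.pow_right e).coprime_dvd_right hMe,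
      fun N hN hNM => hN.dvd_of_dvd_pow (hNM.trans hMe)⟩
  -- irreducibility modulo `P`
  have hirr : ∀ M e : ℕ, M ∣ R ^ e → IrrMod P (expand ℤ M (coefG m r v)) ∧
      IrrMod P (expand ℤ M (coefG m r v + coefB m r v ^ q)) := by
    intro M e hMe
    obtain ⟨h1, -, -, h2⟩ := hM M e hMe
    refine ⟨?_, ?_⟩
    · unfold IrrMod
      rw [map_expand, eG]
      exact irr_expand (coefG_monic _) hg.1 h1 fun N hN hNM => hg.2 N hN (h2 N hN hNM)
    · unfold IrrMod
      rw [map_expand, Polynomial.map_add, Polynomial.map_pow, eG, eB]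
      exact irr_expand (sum_monic _ hqr) hg2.1 h1 fun N hN hNM => hg2.2 N hN (h2 N hN hNM)
  -- the data over a field
  have hdata : ∀ (E : Type) [Field E], (∀ x : ℤ, (x : ZMod P) ≠ 0 → (x : E) ≠ 0) →
      ∀ M e : ℕ, M ∣ R ^ e →
      ((expand ℤ M (coefG m r v)).map (Int.castRingHom E)).Monic ∧
      p.Coprime ((expand ℤ M (coefG m r v)).map (Int.castRingHom E)).natDegree ∧
      (expand ℤ M (coefB m r v)).map (Int.castRingHom E) ≠ 0 ∧
      q * ((expand ℤ M (coefB m r v)).map (Int.castRingHom E)).natDegree <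
        ((expand ℤ M (coefG m r v)).map (Int.castRingHom E)).natDegree ∧
      (expand ℤ M (coefG m r v + coefB m r v ^ q)).map (Int.castRingHom E) =
        (expand ℤ M (coefG m r v)).map (Int.castRingHom E) +
        ((expand ℤ M (coefB m r v)).map (Int.castRingHom E)) ^ q := by
    intro E _ hE M e hMe
    obtain ⟨-, hM0, hpM, -⟩ := hM M e hMe
    have e1 : ((expand ℤ M (coefG m r v)).map (Int.castRingHom E)).natDegree = m * M := by
      rw [map_expand, natDegree_expand, coefG_map, coefG_natDegree]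
    refine ⟨((coefG_monic v).expand hM0).map _, ?_, ?_, ?_, ?_⟩
    · rw [e1]; exact hcop.mul_right hpM
    · rw [map_expand, Ne, expand_eq_zero hM0]
      intro h0
      apply hb
      rw [← eB]
      ext i
      have h2 := congrArg (fun f : E[X] => f.coeff i) h0
      simp only [coeff_map, coeff_zero, eq_intCast] at h2
      rw [coeff_map, coeff_zero, eq_intCast]
      by_contra h3
      exact hE _ h3 h2
    · rw [e1, map_expand, natDegree_expand, coefB_map]
      have h3 := coefB_natDegree (m := m) (r := r) fun i => (Int.castRingHom E) (v i)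
      calc q * ((coefB m r fun i => (Int.castRingHom E) (v i)).natDegree * M)
          ≤ q * (r * M) := Nat.mul_le_mul le_rfl (Nat.mul_le_mul h3 le_rfl)
        _ = q * r * M := by ring
        _ < m * M := Nat.mul_lt_mul_of_pos_right hqr hM0
    · rw [map_add, map_pow, Polynomial.map_add, Polynomial.map_pow]
  refine ⟨⟨hne, hc'⟩, hirr, ?_, ?_⟩
  · intro E _ ζ hζ hσ d M e hd hMe k'' K L _ _ _ _ _ _ _ _ _ hT
    obtain ⟨σ⟩ := hσ
    haveI : CharZero E := ⟨fun a b h => by
      have h0 := congrArg σ h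
      rw [map_natCast, map_natCast] at h0
      exact_mod_cast h0⟩
    have hE : ∀ x : ℤ, (x : ZMod P) ≠ 0 → (x : E) ≠ 0 := by
      intro x hx h0
      apply hx
      have : x = 0 := by exact_mod_cast h0
      rw [this, Int.cast_zero]
    obtain ⟨h1, h2, h3, h4, h5⟩ := hdata E hE M e hMe
    obtain ⟨i1, i2⟩ := hirr M e hMe
    obtain ⟨-, hM0, -, -⟩ := hM M e hMe
    have j1 := irr_up σ ((coefG_monic v).expand hM0) i1
    have j2 := irr_up σ ((sum_monic v hqr).expand hM0) i2
    rw [h5] at j2
    have h6 := conclT (k' := k'') (K := K) (F := L) hp hq hζ h1 j1 j2 h2 h3 h4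
      (hE _ hc') hd hT
    unfold overField
    rw [towSurf_map]
    exact h6
  · intro d M e hd hMe K _ _ _
    obtain ⟨h1, h2, h3, h4, h5⟩ := hdata (ZMod P) (fun x hx => hx) M e hMe
    obtain ⟨i1, i2⟩ := hirr M e hMe
    unfold IrrMod at i1 i2
    rw [h5] at i2
    have h6 := shaT hp hq hζb h1 i1 i2 h2 h3 h4 hc' hd K
    unfold overField
    rw [towSurf_map]
    exact h6

end prime

/-- Places. -/
theorem place_R (k : Type) [Field k] [NumberField k] {R : ℕ} (hR : 0 < R) (B : ℕ) :
    ∃ (P : ℕ) (_ : Fact P.Prime), B < P ∧ Nonempty (k →+* ℚ_[P]) ∧ R ∣ P - 1 := by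
  classical
  let Ω := AlgebraicClosure k
  haveI : NeZero ((R : ℕ) : Ω) := ⟨by exact_mod_cast hR.ne'⟩
  obtain ⟨ξ, hξ⟩ := IsAlgClosed.exists_root (cyclotomic R Ω) (by
    rw [degree_cyclotomic]
    have := Nat.totient_pos.2 hR
    exact_mod_cast this.ne')
  have hξ' : IsPrimitiveRoot ξ R := isRoot_cyclotomic_iff.1 hξ
  let L := IntermediateField.adjoin k ({ξ} : Set Ω)
  haveI : FiniteDimensional k L :=
    IntermediateField.finiteDimensional_adjoin fun x _ =>
      (AlgebraicClosure.isAlgebraic k).isAlgebraic x |>.isIntegral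
  haveI : CharZero L := charZero_of_injective_algebraMap (algebraMap k L).injective
  haveI : FiniteDimensional ℚ L := Module.Finite.trans k L
  haveI : NumberField L := {}
  obtain ⟨P, hP, hPB, ⟨σ⟩⟩ := embed_ex L (B + R)
  have hcoe : Function.Injective (PadicInt.Coe.ringHom (p := P)) := fun a b h => PadicInt.ext h
  refine ⟨P, hP, by omega, ⟨σ.comp (algebraMap k L)⟩, ?_⟩
  have hξL : ξ ∈ L := IntermediateField.mem_adjoin_simple_self k ξ
  have h1 : IsPrimitiveRoot (⟨ξ, hξL⟩ : L) R := by
    refine IsPrimitiveRoot.of_map_of_injective (f := algebraMap L Ω) ?_ (algebraMap L Ω).injective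
    exact hξ'
  obtain ⟨x, hx⟩ := to_int σ (x := (⟨ξ, hξL⟩ : L)) (IsIntegral.of_pow hR (by
    rw [h1.pow_eq_one]; exact isIntegral_one))
  have h2 : IsPrimitiveRoot x R := by
    have h3 : IsPrimitiveRoot (σ (⟨ξ, hξL⟩ : L)) R := h1.map_of_injective σ.injective
    rw [← hx] at h3
    exact IsPrimitiveRoot.of_map_of_injective (f := PadicInt.Coe.ringHom (p := P)) h3 hcoe
  have h3 : IsPrimitiveRoot (PadicInt.toZMod x) R := prim_red _ (by
    intro h0
    rw [ZMod.natCast_eq_zero_iff] at h0
    have := Nat.le_of_dvd hR h0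
    omega) h2
  exact h3.dvd_of_pow_eq_one _ (ZMod.pow_card_sub_one_eq_one (h3.ne_zero hR.ne'))

end Pool.Agent.Y160.T3
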